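import Pool.Agent.W2helper28.BU.DiagGauge

/-!
# Braided fusion categories with unitary F-matrices are unitary (Q1)

Q1 asks for a non-unitary braided fusion category with a gauge in which all the F-matrices are
unitary and all the braiding matrices are diagonal. There is none. For a braided fusion category `C`
over the complex numbers the following are equivalent:
(1) there is a gauge with unitary F-matrices;
(2) there is a gauge with unitary F-matrices and diagonal braiding matrices;
(3) the fusion category `C` is unitary: it is linearly monoidally equivalent to a C*-tensor category;
(4) the braided fusion category `C` is unitary: it is linearly braided monoidally equivalent to a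
C*-tensor category with unitary braiding.
In particular the condition on the braiding matrices in Q1 is not needed.

(1) implies (3) is the starting result `UnitaryFMatrices` (Q2). (3) implies (4): the braiding is
transported to the C*-tensor category `D`. For simple `X` let `e_Y` be the braiding of `X` and `Y`,
`η_Y` the coevaluation of `Y`, and let `λ_Y` and `d_Y` be the scalars defined by
`(e_Y ⊗ 1)(1 ⊗ η_Y)` and by `η_Y`. Both are multiplicative, and the ratio is bounded for all `Y`,
because `e` is natural and there are finitely many simple objects. So `λ_Y ≤ d_Y`. The same is true
for the half-braiding `(e_Y^*)^{-1}`, and so the vector `(e_Y - (e_Y^*)^{-1}) ⊗ 1)(1 ⊗ η_Y)` has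
the square norm `λ_Y + λ'_Y - 2 d_Y ≤ 0`, and `e_Y` is unitary. (4) implies (2): take orthonormal
bases of the spaces `V^{ab}_c`, `a ≤ b`, of eigenvectors of the square of the braiding (of the braiding
for `a = b`), and their images in `V^{ba}_c`.
-/

open CategoryTheory CategoryTheory.Limits MonoidalCategory Pool.Agent.TH22.UF
  Pool.Agent.W2helper28.BU

universe v u

/-- **MP_7857a6_al, Q1.** A braided fusion category has a gauge in which all F-matrices are unitary
if and only if it has a gauge in which all F-matrices are unitary and all braiding matrices are
diagonal, if and only if it is unitary as a fusion category, if and only if it is unitary as a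
braided fusion category. So there is no non-unitary braided fusion category which has a gauge with
unitary F-matrices and diagonal braiding matrices. -/
theorem Pool.Agent.Results.MP_7857a6_al.UnitaryBraidedGauges.result
    (C : Type u) [Category.{v} C] [Abelian C] [Linear ℂ C] [HasFiniteBiproducts C]
    [MonoidalCategory C] [MonoidalPreadditive C] [MonoidalLinear ℂ C] [RigidCategory C]
    [BraidedCategory C] (hC : IsFusionCategory C) (r : ℕ) (S : Fin r → C) (hS : IsSimpleList S) :
    List.TFAE [∃ g : Gauge S, g.UnitaryF, ∃ g : Gauge S, g.UnitaryF ∧ DiagonalBraiding g,
      IsUnitary C, IsBraidedUnitary C] :=
  tfae hC hS
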